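import Pool.Agent.Lib.MP_4bee3f_an.Ex

namespace Pool.Agent.Results.MP_4bee3f_an.AllOrders

open Pool.Agent.Lib.MP_4bee3f_an.K

/-- In dimensions 2, 4 and 8, for every `k`, there is a homogeneous first-order elliptic system
with coefficients of class `C^{k+1}` and `C^{k,1}` and a classical solution whose Jacobian is
nonzero and of the same classes, but which is neither `C^{k+1,1}` nor `C^{k+2}`.  In the plane the
principal part has constant coefficients; in dimensions 4 and 8 there is no lower order term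
and the Jacobian is identically `1`. -/
theorem result (n : ℕ) (hn : n = 2 ∨ n = 4 ∨ n = 8) (k : ℕ) :
    ∃ (Ω : Set (E n)) (A : Fin n → E n → Matrix (Fin n) (Fin n) ℝ)
      (B : E n → Matrix (Fin n) (Fin n) ℝ) (u : Fin n → E n → ℝ),
      IsOpen Ω ∧ IsConnected Ω ∧
      (∀ x ∈ Ω, ∀ ξ : Fin n → ℝ, ξ ≠ 0 → (∑ j, ξ j • A j x).det ≠ 0) ∧
      (∀ i, ContDiffOn ℝ (k + 1) (u i) Ω) ∧
      (∀ x ∈ Ω, ∀ i, ∑ j, ∑ l, A j x i l * pd (u l) j x + ∑ l, B x i l * u l x = 0) ∧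
      (∀ x ∈ Ω, jac u x ≠ 0) ∧
      (∀ j i l, ContDiffOn ℝ (k + 1) (fun x => A j x i l) Ω ∧ CLip k (fun x => A j x i l) Ω) ∧
      (∀ i l, ContDiffOn ℝ (k + 1) (fun x => B x i l) Ω ∧ CLip k (fun x => B x i l) Ω) ∧
      (ContDiffOn ℝ (k + 1) (jac u) Ω ∧ CLip k (jac u) Ω) ∧
      ((n = 2 → ∀ j x y, A j x = A j y) ∧ (n ≠ 2 → ∀ x ∈ Ω, B x = 0 ∧ jac u x = 1)) ∧
      ∃ i, ¬ CLip (k + 1) (u i) Ω ∧ ¬ ContDiffOn ℝ (k + 2) (u i) Ω := by
  rcases hn with rfl | rfl | rfl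
  · obtain ⟨Ω, A, B, u, h1, h2, h3, h4, h5, h6, h7, h8, h9, hX, h⟩ := two k
    refine ⟨Ω, A, B, u, h1, h2, h3, h4, h5, h6, h7, h8, h9, ⟨fun _ j x y => ?_, fun h => absurd rfl h⟩, h⟩
    fin_cases j
    · exact (hX x).1.trans (hX y).1.symm
    · exact (hX x).2.trans (hX y).2.symm
  · obtain ⟨Ω, A, B, u, h1, h2, h3, h4, h5, h6, h7, h8, h9, hX, h⟩ :=
      big k (by decide) (by decide) (by decide) (by decide) (by decide) (by decide) cst4
    exact ⟨Ω, A, B, u, h1, h2, h3, h4, h5, h6, h7, h8, h9, ⟨fun h => absurd h (by decide), fun _ => hX⟩, h⟩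
  · obtain ⟨Ω, A, B, u, h1, h2, h3, h4, h5, h6, h7, h8, h9, hX, h⟩ :=
      big k (by decide) (by decide) (by decide) (by decide) (by decide) (by decide) cst8
    exact ⟨Ω, A, B, u, h1, h2, h3, h4, h5, h6, h7, h8, h9, ⟨fun h => absurd h (by decide), fun _ => hX⟩, h⟩

end Pool.Agent.Results.MP_4bee3f_an.AllOrders
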