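import Pool.Agent.Lib.MP_4bee3f_an.G.Pos
import Pool.Agent.Lib.MP_4bee3f_an.G.NegC

namespace Pool.Agent.Results.MP_4bee3f_an.JetCriterion

open Pool.Agent.Lib.MP_4bee3f_an.G

/-- Classification of the 1-jets at which solutions of first-order elliptic systems with a
Jacobian as smooth as the coefficients gain one derivative in the endpoint classes. -/
theorem result (n : ℕ) (hn : 2 ≤ n) (k : ℕ) (lip narrow : Bool) (A0 : Fin n → Mat n) (hA : Ell A0)
    (P0 : Mat n) (hP : P0.det ≠ 0) :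
    Gain lip narrow k A0 P0 ↔
      n = 2 ∧ ∃ M : Mat n, (∀ i, app A0 M i = 0) ∧ (P0⁻¹ * M).trace ≠ 0 := by
  have w : Gain lip false k A0 P0 → Gain lip narrow k A0 P0 :=
    fun h Ω A B c u J a1 a2 a3 a4 a5 a6 a7 _ => h Ω A B c u J a1 a2 a3 a4 a5 a6 a7 (by simp)
  have w' : Gain lip narrow k A0 P0 → Gain lip true k A0 P0 :=
    fun h Ω A B c u J a1 a2 a3 a4 a5 a6 a7 a8 => h Ω A B c u J a1 a2 a3 a4 a5 a6 a7 fun _ => a8 rfl
  refine ⟨fun h => ?_, ?_⟩
  · by_contra hc
    obtain ⟨ξ, v, hv⟩ : ∃ ξ v, Chr A0 P0⁻¹ ξ v := by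
      by_cases h2 : n = 2
      · subst h2
        exact chr_two hA fun M hM => by
          by_contra ht
          exact hc ⟨rfl, M, hM, ht⟩
      · exact chr_big (by omega) hA _
    exact not_gain (by omega) lip k hA hP hv (w' h)
  · rintro ⟨rfl, M, hM, ht⟩
    refine w (gain_two lip k hM fun h0 => ht ?_)
    rw [Matrix.inv_def, Matrix.smul_mul, Matrix.trace_smul, h0, smul_zero]

/-- In the plane the gain holds if the Jacobian has the sign of the determinant on the kernel; for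
`B = 0`, `c = 0` take `M = P0`. -/
theorem oriented (k : ℕ) (lip : Bool) {A0 : Fin 2 → Mat 2} (hA : Ell A0) {P0 M : Mat 2}
    (hM : ∀ i, app A0 M i = 0) (h : 0 < M.det * P0.det) : Gain lip false k A0 P0 := by
  have hP : P0.det ≠ 0 := fun h0 => by simp [h0] at h
  refine (result 2 le_rfl k lip false A0 hA P0 hP).2 ⟨rfl, ?_⟩
  by_contra hc
  have h1 : (A0 1).det ≠ 0 := by simpa using hA (Pi.single 1 1) (by simp)
  obtain ⟨b, hb⟩ := (Matrix.mulVec_surjective_iff_isUnit.2
    ((Matrix.isUnit_iff_isUnit_det _).2 h1.isUnit)) ((A0 0).mulVec fun l => P0 l 0)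
  set N : Mat 2 := Matrix.of fun l j => if j = 0 then -P0 l 0 else b l with hN
  have h2 : ∀ i, app A0 N i = 0 := fun i => by
    have := congrFun hb i
    simp only [Matrix.mulVec, dotProduct, Fin.sum_univ_two] at this
    simp [app, hN, Fin.sum_univ_two]
    linarith
  have h3 : (P0.adjugate * N).trace = 0 := by
    by_contra ht
    refine hc ⟨N, h2, ?_⟩
    rw [Matrix.inv_def, Matrix.smul_mul, Matrix.trace_smul, Ring.inverse_eq_inv', smul_eq_mul]
    exact mul_ne_zero (inv_ne_zero hP) ht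
  have h4 := det_add2 P0 N
  have h5 : (P0 + N).det = 0 := by simp [Matrix.det_fin_two, hN]
  obtain ⟨σ, c, C, hc0, -, hg⟩ := garding (A := fun _ => A0) hA fun _ _ _ => continuousAt_const
  have pos : ∀ Y : Mat 2, (∀ i, app A0 Y i = 0) → Y.det ≠ 0 → 0 < σ * Y.det := fun Y hY hd => by
    have h6 := hg.self_of_nhds Y
    simp only [hY, Fin.sum_univ_two] at h6
    by_contra h8
    have h9 : Y 0 0 ^ 2 + Y 0 1 ^ 2 + (Y 1 0 ^ 2 + Y 1 1 ^ 2) ≤ 0 := by
      by_contra h10
      nlinarith [mul_pos hc0 (not_le.1 h10)]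
    refine hd ?_
    rw [Matrix.det_fin_two]
    nlinarith [sq_nonneg (Y 0 0 - Y 1 1), sq_nonneg (Y 0 0 + Y 1 1), sq_nonneg (Y 0 1 - Y 1 0),
      sq_nonneg (Y 0 1 + Y 1 0)]
  have e : N.det = -P0.det := by linarith
  have p1 := pos M hM fun h0 => by simp [h0] at h
  have p2 := pos N h2 (by rw [e]; exact neg_ne_zero.2 hP)
  rw [e] at p2
  nlinarith [mul_pos p1 p2, mul_nonneg (mul_self_nonneg σ) h.le]

/-- The Cauchy-Riemann system at the jet of the complex conjugation: no gain. -/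
theorem cauchyRiemann (k : ℕ) (lip narrow : Bool) :
    Ell ![1, !![0, -1; 1, 0]] ∧ ¬ Gain lip narrow k ![1, !![0, -1; 1, 0]] !![1, 0; 0, -1] := by
  have hA : Ell ![1, !![0, -1; 1, 0]] := fun ξ hξ h => hξ <| by
    simp [Matrix.det_fin_two, Fin.sum_univ_two] at h
    ext i
    fin_cases i <;> simp <;> nlinarith [mul_self_nonneg (ξ 0), mul_self_nonneg (ξ 1)]
  refine ⟨hA, fun h => ?_⟩
  obtain ⟨-, M, hM, ht⟩ := (result 2 le_rfl k lip narrow _ hA _ (by simp)).1 h
  have := hM 0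
  simp [app, Fin.sum_univ_two] at this
  refine ht ?_
  simp [Matrix.inv_def, Matrix.trace, Matrix.vecMul, dotProduct, Fin.sum_univ_two]
  linarith

end Pool.Agent.Results.MP_4bee3f_an.JetCriterion
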